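import Pool.Agent.W670.TL.Defs

set_option autoImplicit false

namespace Pool.Agent.W716.TL

open NumberField Polynomial Pool.Agent.W670.TL

theorem dsc : S_DSC := by
  intro K M _ _ _ _ _ q d a hq hq1 hd ha htop
  have hq0 : q ≠ 0 := by omega
  have hint : IsIntegral ℤ a := by
    refine ⟨X ^ q - C (d : ℤ), monic_X_pow_sub_C _ hq0, ?_⟩
    simp [ha]
  obtain ⟨α, hα⟩ : ∃ α : 𝓞 M, algebraMap (𝓞 M) M α = a := ⟨⟨a, hint⟩, rfl⟩
  have hintK : IsIntegral K a := hint.tower_top
  have hadj : Algebra.adjoin K {algebraMap (𝓞 M) M α} = ⊤ := by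
    have h1 := IntermediateField.adjoin_simple_toSubalgebra_of_isAlgebraic hintK.isAlgebraic
    rw [hα, ← h1, htop, IntermediateField.top_toSubalgebra]
  have hdeg : (minpoly K a).natDegree = q := by
    rw [← IntermediateField.adjoin.finrank hintK, htop, IntermediateField.finrank_top', hq]
  have hmin : minpoly K a = X ^ q - C (d : K) := by
    symm
    apply Polynomial.eq_of_monic_of_dvd_of_natDegree_le (minpoly.monic hintK)
      (monic_X_pow_sub_C _ hq0)
    · apply minpoly.dvd
      simp [ha]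
    · rw [hdeg, natDegree_X_pow_sub_C]
  have hmem := aeval_derivative_mem_differentIdeal (𝓞 K) K M α hadj
  have hval : aeval α (derivative (minpoly (𝓞 K) α)) = (q : 𝓞 M) * α ^ (q - 1) := by
    apply FaithfulSMul.algebraMap_injective (𝓞 M) M
    have h2 : algebraMap (𝓞 M) M (aeval α (derivative (minpoly (𝓞 K) α))) =
        aeval a (derivative (minpoly K a)) := by
      rw [← hα, minpoly.isIntegrallyClosed_eq_field_fractions K M
        (IsIntegral.of_finite (𝓞 K) α), derivative_map, aeval_map_algebraMap,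
        aeval_algebraMap_apply]
    rw [h2, hmin, derivative_sub, derivative_C, sub_zero, derivative_X_pow]
    simp [hα]
  rw [hval] at hmem
  have hdvd := Ideal.absNorm_dvd_norm_of_mem hmem
  have hfin : Module.finrank ℚ K * q = Module.finrank ℚ M := by
    rw [← hq, Module.finrank_mul_finrank]
  obtain ⟨n, hn⟩ : ∃ n, n = Module.finrank ℚ K := ⟨_, rfl⟩
  have hrk : Module.finrank ℤ (𝓞 M) = n * q := by
    rw [RingOfIntegers.rank, hn, hfin]
  have hnormα : (Algebra.norm ℤ α).natAbs = d ^ n := by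
    have h3 : α ^ q = (d : 𝓞 M) := by
      apply FaithfulSMul.algebraMap_injective (𝓞 M) M
      rw [map_pow, hα, ha, map_natCast]
    have h4 : (Algebra.norm ℤ α) ^ q = ((d ^ (n * q) : ℕ) : ℤ) := by
      rw [← map_pow, h3]
      have := Algebra.norm_algebraMap_of_basis (RingOfIntegers.basis M) (d : ℤ)
      rw [← Module.finrank_eq_card_basis (RingOfIntegers.basis M)] at this
      rw [map_natCast] at this
      rw [this, hrk]
      push_cast
      rfl
    have h5 : (Algebra.norm ℤ α).natAbs ^ q = (d ^ n) ^ q := by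
      rw [← Int.natAbs_pow, h4, Int.natAbs_natCast, pow_mul]
    exact Nat.pow_left_injective (by omega) h5
  have hnorm : (Algebra.norm ℤ ((q : 𝓞 M) * α ^ (q - 1))).natAbs =
      (q ^ q * d ^ (q - 1)) ^ n := by
    rw [map_mul, map_pow, Int.natAbs_mul, Int.natAbs_pow, hnormα]
    have := Algebra.norm_algebraMap_of_basis (RingOfIntegers.basis M) (q : ℤ)
    rw [← Module.finrank_eq_card_basis (RingOfIntegers.basis M), map_natCast] at this
    rw [this, hrk, Int.natAbs_pow, Int.natAbs_natCast, mul_pow, ← pow_mul, ← pow_mul, ← pow_mul,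
      mul_comm n q, mul_comm n (q - 1)]
  have hle : Ideal.absNorm (differentIdeal (𝓞 K) (𝓞 M)) ≤ (q ^ q * d ^ (q - 1)) ^ n := by
    rw [← hnorm]
    apply Nat.le_of_dvd
    · rw [hnorm]
      positivity
    · exact Int.natCast_dvd.mp hdvd
  have hdisc := NumberField.natAbs_discr_eq_absNorm_differentIdeal_mul_natAbs_discr_pow
    K (𝓞 K) M (𝓞 M)
  have hDM : D M = ((discr M).natAbs : ℝ) := by
    rw [D, Nat.cast_natAbs, Int.cast_abs]
  have hDK : D K = ((discr K).natAbs : ℝ) := by
    rw [D, Nat.cast_natAbs, Int.cast_abs]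
  rw [hDM, hDK, hdisc, hq, ← hn]
  have h6 : Ideal.absNorm (differentIdeal (𝓞 K) (𝓞 M)) * (discr K).natAbs ^ q ≤
      (discr K).natAbs ^ q * (q ^ q * d ^ (q - 1)) ^ n := by
    rw [mul_comm]
    exact Nat.mul_le_mul_left _ hle
  exact_mod_cast h6

end Pool.Agent.W716.TL
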